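import Mathlib

/-!
# Matrix exponentials of Markov generators on a finite state space

Auxiliary facts for MP_bada7b_pr.
-/

set_option autoImplicit false

open Finset Matrix

namespace Pool.Agent.H857R3.MLS

variable {Ω : Type*} [Fintype Ω] [DecidableEq Ω]

set_option backward.isDefEq.respectTransparency false in
theorem exp_smul_hasSum (M : Matrix Ω Ω ℝ) (t : ℝ) :
    HasSum (fun n : ℕ => ((n.factorial : ℝ)⁻¹) • (t • M) ^ n) (NormedSpace.exp (t • M)) := by
  open scoped Matrix.Norms.Operator in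
  exact NormedSpace.exp_series_hasSum_exp' (𝕂 := ℝ) (t • M)

set_option backward.isDefEq.respectTransparency false in
theorem exp_scalar (c : ℝ) :
    NormedSpace.exp (c • (1 : Matrix Ω Ω ℝ)) = Real.exp c • (1 : Matrix Ω Ω ℝ) := by
  open scoped Matrix.Norms.Operator in
  have h := NormedSpace.algebraMap_exp_comm (𝕂 := ℝ) (𝔸 := Matrix Ω Ω ℝ) c
  rw [Algebra.algebraMap_eq_smul_one, Algebra.algebraMap_eq_smul_one,
    ← Real.exp_eq_exp_ℝ] at h
  exact h.symm

/-- The entries of `exp (-t (I - M))` as a Poisson mixture of the entries of the powers of `M`. -/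
theorem heat_eq (M : Matrix Ω Ω ℝ) (t : ℝ) :
    NormedSpace.exp (-t • (1 - M)) = Real.exp (-t) • NormedSpace.exp (t • M) := by
  have h1 : -t • (1 - M) = t • M + (-t) • (1 : Matrix Ω Ω ℝ) := by
    rw [smul_sub, neg_smul, neg_smul]
    abel
  have hc : Commute (t • M) ((-t) • (1 : Matrix Ω Ω ℝ)) :=
    ((Commute.one_right M).smul_left _).smul_right _
  rw [h1, Matrix.exp_add_of_commute _ _ hc, exp_scalar, Matrix.mul_smul, mul_one]

theorem heat_hasSum (M : Matrix Ω Ω ℝ) (t : ℝ) (x y : Ω) :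
    HasSum (fun n : ℕ => Real.exp (-t) * (t ^ n / n.factorial) * (M ^ n) x y)
      (NormedSpace.exp (-t • (1 - M)) x y) := by
  rw [heat_eq]
  have h1 := (Pi.hasSum.mp (Pi.hasSum.mp (exp_smul_hasSum M t) x) y).mul_left (Real.exp (-t))
  have e : (fun n : ℕ => Real.exp (-t) * (t ^ n / n.factorial) * (M ^ n) x y) =
      fun n : ℕ => Real.exp (-t) * (((n.factorial : ℝ)⁻¹ • (t • M) ^ n) x y) := by
    funext n
    rw [smul_pow]
    simp only [Matrix.smul_apply, smul_eq_mul]
    ring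
  rw [e]
  exact h1

theorem poisson_hasSum (t : ℝ) :
    HasSum (fun n : ℕ => Real.exp (-t) * (t ^ n / n.factorial)) 1 := by
  have h := (NormedSpace.expSeries_div_hasSum_exp t).mul_left (Real.exp (-t))
  rw [← Real.exp_eq_exp_ℝ, ← Real.exp_add, neg_add_cancel, Real.exp_zero] at h
  exact h

theorem poisson_pow_hasSum (t r : ℝ) :
    HasSum (fun n : ℕ => Real.exp (-t) * (t ^ n / n.factorial) * r ^ n)
      (Real.exp (-(t * (1 - r)))) := by
  have h := (NormedSpace.expSeries_div_hasSum_exp (t * r)).mul_left (Real.exp (-t))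
  rw [← Real.exp_eq_exp_ℝ, ← Real.exp_add] at h
  have e : -t + t * r = -(t * (1 - r)) := by ring
  rw [e] at h
  have e2 : (fun n : ℕ => Real.exp (-t) * (t ^ n / n.factorial) * r ^ n) =
      fun n : ℕ => Real.exp (-t) * ((t * r) ^ n / n.factorial) := by
    funext n
    rw [mul_pow]
    ring
  rw [e2]
  exact h

theorem weight_nonneg {t : ℝ} (ht : 0 ≤ t) (n : ℕ) :
    0 ≤ Real.exp (-t) * (t ^ n / n.factorial) := by
  positivity

theorem heat_sum_hasSum (M : Matrix Ω Ω ℝ) (t : ℝ) (x : Ω) (A : Finset Ω) :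
    HasSum (fun n : ℕ => Real.exp (-t) * (t ^ n / n.factorial) * ∑ y ∈ A, (M ^ n) x y)
      (∑ y ∈ A, NormedSpace.exp (-t • (1 - M)) x y) := by
  have := hasSum_sum (f := fun (y : Ω) (n : ℕ) =>
    Real.exp (-t) * (t ^ n / n.factorial) * (M ^ n) x y)
    (a := fun y => NormedSpace.exp (-t • (1 - M)) x y)
    (s := A) (fun y _ => heat_hasSum M t x y)
  simp only [Finset.mul_sum]
  exact this

theorem pow_nonneg_entry {M : Matrix Ω Ω ℝ} (hM : ∀ x y, 0 ≤ M x y) (n : ℕ) (x y : Ω) :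
    0 ≤ (M ^ n) x y := by
  induction n generalizing x y with
  | zero =>
    rw [pow_zero, Matrix.one_apply]
    split_ifs <;> norm_num
  | succ n ih =>
    rw [pow_succ, Matrix.mul_apply]
    exact Finset.sum_nonneg fun z _ => mul_nonneg (ih x z) (hM z y)

theorem pow_row_sum {M : Matrix Ω Ω ℝ} (hM : ∀ x, ∑ y, M x y = 1) (n : ℕ) (x : Ω) :
    ∑ y, (M ^ n) x y = 1 := by
  induction n generalizing x with
  | zero => simp [Matrix.one_apply]
  | succ n ih =>
    simp_rw [pow_succ, Matrix.mul_apply]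
    rw [Finset.sum_comm]
    simp_rw [← Finset.mul_sum, hM, mul_one]
    exact ih x

theorem heat_nonneg {M : Matrix Ω Ω ℝ} (hM : ∀ x y, 0 ≤ M x y) {t : ℝ} (ht : 0 ≤ t) (x y : Ω) :
    0 ≤ NormedSpace.exp (-t • (1 - M)) x y :=
  (heat_hasSum M t x y).nonneg fun n => mul_nonneg (weight_nonneg ht n) (pow_nonneg_entry hM n x y)

theorem heat_row {M : Matrix Ω Ω ℝ} (hM : ∀ x, ∑ y, M x y = 1) (t : ℝ) (x : Ω) :
    ∑ y, NormedSpace.exp (-t • (1 - M)) x y = 1 := by
  have h := heat_sum_hasSum M t x univ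
  simp only [pow_row_sum hM, mul_one] at h
  exact h.unique (poisson_hasSum t)

/-- Lyapunov bound: if `M V ≤ r V`, then the total mass of `exp (-t (I - M))` started from `x`
is at most `exp (-t (1 - r)) V x`. -/
theorem heat_lyapunov {M : Matrix Ω Ω ℝ} (hM : ∀ x y, 0 ≤ M x y) {V : Ω → ℝ} {r : ℝ}
    (hV : ∀ x, 1 ≤ V x) (hr : 0 ≤ r) (hMV : ∀ x, ∑ y, M x y * V y ≤ r * V x)
    {t : ℝ} (ht : 0 ≤ t) (x : Ω) (A : Finset Ω) :
    ∑ y ∈ A, NormedSpace.exp (-t • (1 - M)) x y ≤ Real.exp (-(t * (1 - r))) * V x := by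
  have key : ∀ n : ℕ, ∀ x, ∑ y, (M ^ n) x y * V y ≤ r ^ n * V x := by
    intro n
    induction n with
    | zero =>
      intro x
      simp [Matrix.one_apply]
    | succ n ih =>
      intro x
      calc ∑ y, (M ^ (n + 1)) x y * V y = ∑ z, M x z * ∑ y, (M ^ n) z y * V y := by
            simp_rw [pow_succ', Matrix.mul_apply, Finset.sum_mul, Finset.mul_sum]
            rw [Finset.sum_comm]
            refine Finset.sum_congr rfl fun z _ => Finset.sum_congr rfl fun y _ => by ring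
        _ ≤ ∑ z, M x z * (r ^ n * V z) :=
            Finset.sum_le_sum fun z _ => mul_le_mul_of_nonneg_left (ih z) (hM x z)
        _ = r ^ n * ∑ z, M x z * V z := by
            rw [Finset.mul_sum]
            refine Finset.sum_congr rfl fun z _ => by ring
        _ ≤ r ^ n * (r * V x) := mul_le_mul_of_nonneg_left (hMV x) (pow_nonneg hr n)
        _ = r ^ (n + 1) * V x := by ring
  refine hasSum_le (fun n => ?_) (heat_sum_hasSum M t x A)
    ((poisson_pow_hasSum t r).mul_right (V x))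
  have h1 : ∑ y ∈ A, (M ^ n) x y ≤ r ^ n * V x := by
    calc ∑ y ∈ A, (M ^ n) x y ≤ ∑ y, (M ^ n) x y :=
          Finset.sum_le_sum_of_subset_of_nonneg (Finset.subset_univ A)
            fun y _ _ => pow_nonneg_entry hM n x y
      _ ≤ ∑ y, (M ^ n) x y * V y :=
          Finset.sum_le_sum fun y _ => le_mul_of_one_le_right (pow_nonneg_entry hM n x y) (hV y)
      _ ≤ r ^ n * V x := key n x
  calc Real.exp (-t) * (t ^ n / n.factorial) * ∑ y ∈ A, (M ^ n) x y
      ≤ Real.exp (-t) * (t ^ n / n.factorial) * (r ^ n * V x) :=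
        mul_le_mul_of_nonneg_left h1 (weight_nonneg ht n)
    _ = Real.exp (-t) * (t ^ n / n.factorial) * r ^ n * V x := by ring

end Pool.Agent.H857R3.MLS
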