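import Mathlib
import Pool.Agent.H857R3.MLS.Basic

/-!
# Entropy, Dirichlet form, mixing and hitting parameters of a finite chain

Definitions and general lemmas for MP_bada7b_pr.
-/

set_option autoImplicit false

open Finset Matrix

namespace Pool.Agent.H857R3.MLS

variable {Ω : Type*} [Fintype Ω] [DecidableEq Ω]

/-- `P` is an irreducible transition matrix on the finite set `Ω`, reversible with respect to the
probability `π`. -/
structure IsReversibleChain (P : Matrix Ω Ω ℝ) (π : Ω → ℝ) : Prop where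
  nonneg : ∀ x y, 0 ≤ P x y
  row_sum : ∀ x, ∑ y, P x y = 1
  irreducible : ∀ x y, ∃ n : ℕ, 0 < (P ^ n) x y
  prob_nonneg : ∀ x, 0 ≤ π x
  prob_sum : ∑ x, π x = 1
  reversible : ∀ x y, π x * P x y = π y * P y x

/-- The heat kernel `H_t = exp (-t (I - P))`; its row `H_t(x, ·)` is the law at time `t` of the
continuous-time chain started from `x`. -/
noncomputable def heat (P : Matrix Ω Ω ℝ) (t : ℝ) : Matrix Ω Ω ℝ :=
  NormedSpace.exp (-t • (1 - P))

/-- The Dirichlet form `E(f, g) = ⟨(I - P) f, g⟩_π`. -/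
def dirichlet (P : Matrix Ω Ω ℝ) (π f g : Ω → ℝ) : ℝ :=
  ∑ x, π x * ((f x - ∑ y, P x y * f y) * g x)

/-- The entropy functional `Ent_π(f) = E_π[f log f] - E_π[f] log E_π[f]`. -/
noncomputable def ent (π f : Ω → ℝ) : ℝ :=
  ∑ x, π x * (f x * Real.log (f x)) - (∑ x, π x * f x) * Real.log (∑ x, π x * f x)

/-- The modified log-Sobolev constant: the infimum of `E(e^f, f) / Ent_π(e^f)` over all
non-constant functions `f`. -/
noncomputable def cMLS (P : Matrix Ω Ω ℝ) (π : Ω → ℝ) : ℝ :=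
  sInf {r : ℝ | ∃ f : Ω → ℝ, (¬ ∃ c : ℝ, ∀ x, f x = c) ∧
    r = dirichlet P π (fun x => Real.exp (f x)) f / ent π (fun x => Real.exp (f x))}

/-- The relative entropy `D(μ ‖ π) = ∑ x, μ(x) log (μ(x) / π(x))`. -/
noncomputable def relEnt (μ π : Ω → ℝ) : ℝ := ∑ x, μ x * Real.log (μ x / π x)

/-- The entropy mixing time: the maximum over `x` of the infimum of the times `t ≥ 0` with
`D(H_t(x, ·) ‖ π) ≤ 1/2`. -/
noncomputable def tauEnt (P : Matrix Ω Ω ℝ) (π : Ω → ℝ) : ℝ :=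
  ⨆ x : Ω, sInf {t : ℝ | 0 ≤ t ∧ relEnt (heat P t x) π ≤ 1 / 2}

/-- The transition matrix of the chain killed when it leaves `A`: the entries of `P` with both
indices in `A`, and `0` elsewhere. -/
def killed (P : Matrix Ω Ω ℝ) (A : Finset Ω) : Matrix Ω Ω ℝ :=
  fun x y => if x ∈ A ∧ y ∈ A then P x y else 0

/-- The probability `P_x[T_{Aᶜ} > t]` that the continuous-time chain started from `x` has not left
`A` by time `t`: the total mass which the semigroup of the chain killed on leaving `A` gives to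
`A` at time `t` (it vanishes when `x ∉ A`). -/
noncomputable def stayProb (P : Matrix Ω Ω ℝ) (A : Finset Ω) (t : ℝ) (x : Ω) : ℝ :=
  ∑ y ∈ A, NormedSpace.exp (-t • (1 - killed P A)) x y

/-- `A` is connected: from every `a ∈ A` the chain reaches every `b ∈ A` before leaving `A` with
positive probability. -/
def IsConnectedSet (P : Matrix Ω Ω ℝ) (A : Finset Ω) : Prop :=
  ∀ a ∈ A, ∀ b ∈ A, ∃ n : ℕ, 0 < (killed P A ^ n) a b

/-- The entropy hitting-time parameter with constant `C`: the maximum over `x` of the infimum of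
the times `t ≥ 0` with `P_x[T_{Aᶜ} > t] ≤ min (C / |log π(A)|) (99/100)` for every connected `A`
with `π(A) ≤ 1/2`. -/
noncomputable def rhoEnt (C : ℝ) (P : Matrix Ω Ω ℝ) (π : Ω → ℝ) : ℝ :=
  ⨆ x : Ω, sInf {t : ℝ | 0 ≤ t ∧ ∀ A : Finset Ω, IsConnectedSet P A → ∑ y ∈ A, π y ≤ 1 / 2 →
    stayProb P A t x ≤ min (C / |Real.log (∑ y ∈ A, π y)|) (99 / 100)}

/-! ### General lemmas -/

theorem killed_nonneg {P : Matrix Ω Ω ℝ} (hP : ∀ x y, 0 ≤ P x y) (A : Finset Ω) (x y : Ω) :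
    0 ≤ killed P A x y := by
  unfold killed
  split_ifs
  · exact hP x y
  · exact le_rfl

theorem stayProb_empty (P : Matrix Ω Ω ℝ) (t : ℝ) (x : Ω) : stayProb P ∅ t x = 0 := by
  simp [stayProb]

/-- `Ent_π(g) > 0` for a non-constant positive `g`. -/
theorem ent_pos {π g : Ω → ℝ} (hπ : ∀ x, 0 < π x) (hs : ∑ x, π x = 1) (hg : ∀ x, 0 < g x)
    (hnc : ¬ ∃ c : ℝ, ∀ x, g x = c) : 0 < ent π g := by
  have hne : Nonempty Ω := by
    by_contra h
    rw [not_nonempty_iff] at h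
    exact hnc ⟨0, fun x => (h.false x).elim⟩
  set m : ℝ := ∑ x, π x * g x with hm
  have hm0 : 0 < m := Finset.sum_pos (fun x _ => mul_pos (hπ x) (hg x)) Finset.univ_nonempty
  have h1 : ∀ x, π x * (g x - m) ≤ π x * (g x * Real.log (g x) - g x * Real.log m) := by
    intro x
    refine mul_le_mul_of_nonneg_left ?_ (hπ x).le
    have h := Real.log_le_sub_one_of_pos (div_pos hm0 (hg x))
    rw [Real.log_div hm0.ne' (hg x).ne'] at h
    have h2 := mul_le_mul_of_nonneg_left h (hg x).le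
    have h3 : g x * (m / g x - 1) = m - g x := by
      field_simp [(hg x).ne']
    rw [h3] at h2
    linarith
  obtain ⟨x0, hx0⟩ : ∃ x, g x ≠ m := by
    by_contra h
    push_neg at h
    exact hnc ⟨m, h⟩
  have h2 : π x0 * (g x0 - m) < π x0 * (g x0 * Real.log (g x0) - g x0 * Real.log m) := by
    refine mul_lt_mul_of_pos_left ?_ (hπ x0)
    have hne1 : m / g x0 ≠ 1 := by
      intro h
      rw [div_eq_one_iff_eq (hg x0).ne'] at h
      exact hx0 h.symm
    have h := Real.log_lt_sub_one_of_pos (div_pos hm0 (hg x0)) hne1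
    rw [Real.log_div hm0.ne' (hg x0).ne'] at h
    have h2 := mul_lt_mul_of_pos_left h (hg x0)
    have h3 : g x0 * (m / g x0 - 1) = m - g x0 := by
      field_simp [(hg x0).ne']
    rw [h3] at h2
    linarith
  have h3 : ∑ x, π x * (g x - m) < ∑ x, π x * (g x * Real.log (g x) - g x * Real.log m) :=
    Finset.sum_lt_sum (fun x _ => h1 x) ⟨x0, Finset.mem_univ _, h2⟩
  have h4 : ∑ x, π x * (g x - m) = 0 := by
    simp_rw [mul_sub, Finset.sum_sub_distrib]
    rw [← Finset.sum_mul, hs, one_mul, hm, sub_self]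
  have h5 : ∑ x, π x * (g x * Real.log (g x) - g x * Real.log m) = ent π g := by
    unfold ent
    simp_rw [mul_sub, Finset.sum_sub_distrib]
    congr 1
    rw [hm, Finset.sum_mul]
    refine Finset.sum_congr rfl fun x _ => by ring
  rw [h4, h5] at h3
  exact h3

/-- `Ent_π(h ^ 2) ≤ (4 / p) D ^ 2` when all the differences of `h` are at most `D` and all the
weights are at least `p`. -/
theorem ent_le {π h : Ω → ℝ} {p D : ℝ} (hp : 0 < p) (hπ : ∀ x, p ≤ π x) (hs : ∑ x, π x = 1)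
    (hh : ∀ x, 0 < h x) (hD : ∀ x y, |h x - h y| ≤ D) :
    ent π (fun x => h x ^ 2) ≤ 4 / p * D ^ 2 := by
  have hne : Nonempty Ω := by
    by_contra hcon
    rw [not_nonempty_iff] at hcon
    simp at hs
  obtain ⟨z, -, hz⟩ := Finset.exists_max_image (univ : Finset Ω) h Finset.univ_nonempty
  have hz' : ∀ x, h x ≤ h z := fun x => hz x (Finset.mem_univ x)
  have hπ0 : ∀ x, 0 < π x := fun x => lt_of_lt_of_le hp (hπ x)
  set m : ℝ := ∑ x, π x * h x ^ 2 with hm
  have hm1 : p * h z ^ 2 ≤ m := by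
    calc p * h z ^ 2 ≤ π z * h z ^ 2 := mul_le_mul_of_nonneg_right (hπ z) (sq_nonneg _)
      _ ≤ m := Finset.single_le_sum (f := fun x => π x * h x ^ 2)
          (fun x _ => mul_nonneg (hπ0 x).le (sq_nonneg _)) (Finset.mem_univ z)
  have hm0 : 0 < m := lt_of_lt_of_le (mul_pos hp (pow_pos (hh z) 2)) hm1
  have hD0 : 0 ≤ D := le_trans (abs_nonneg _) (hD z z)
  have hdev : ∀ x, |h x ^ 2 - m| ≤ 2 * h z * D := by
    intro x
    have e : h x ^ 2 - m = ∑ y, π y * (h x ^ 2 - h y ^ 2) := by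
      simp_rw [mul_sub, Finset.sum_sub_distrib]
      rw [← Finset.sum_mul, hs, one_mul]
    rw [e]
    calc |∑ y, π y * (h x ^ 2 - h y ^ 2)| ≤ ∑ y, |π y * (h x ^ 2 - h y ^ 2)| :=
          Finset.abs_sum_le_sum_abs _ _
      _ ≤ ∑ y, π y * (2 * h z * D) := by
          refine Finset.sum_le_sum fun y _ => ?_
          rw [abs_mul, abs_of_pos (hπ0 y)]
          refine mul_le_mul_of_nonneg_left ?_ (hπ0 y).le
          have e2 : h x ^ 2 - h y ^ 2 = (h x + h y) * (h x - h y) := by ring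
          rw [e2, abs_mul, abs_of_pos (add_pos (hh x) (hh y))]
          exact mul_le_mul (by linarith [hz' x, hz' y]) (hD x y) (abs_nonneg _)
            (by linarith [hh z])
      _ = 2 * h z * D := by rw [← Finset.sum_mul, hs, one_mul]
  have h1 : ent π (fun x => h x ^ 2) ≤ ∑ x, π x * (h x ^ 2 - m) ^ 2 / m := by
    have e1 : ent π (fun x => h x ^ 2) =
        ∑ x, π x * (h x ^ 2 * (Real.log (h x ^ 2) - Real.log m) - (h x ^ 2 - m)) := by
      unfold ent
      have e2 : ∑ x, π x * (h x ^ 2 - m) = 0 := by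
        simp_rw [mul_sub, Finset.sum_sub_distrib]
        rw [← Finset.sum_mul, hs, one_mul, hm, sub_self]
      have e3 : ∑ x, π x * (h x ^ 2 * (Real.log (h x ^ 2) - Real.log m) - (h x ^ 2 - m)) =
          ∑ x, π x * (h x ^ 2 * Real.log (h x ^ 2)) - (∑ x, π x * h x ^ 2) * Real.log m -
          ∑ x, π x * (h x ^ 2 - m) := by
        rw [Finset.sum_mul, ← Finset.sum_sub_distrib, ← Finset.sum_sub_distrib]
        refine Finset.sum_congr rfl fun x _ => by ring
      rw [e3, e2, sub_zero]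
    rw [e1]
    refine Finset.sum_le_sum fun x _ => ?_
    rw [mul_div_assoc]
    refine mul_le_mul_of_nonneg_left ?_ (hπ0 x).le
    have hx2 : 0 < h x ^ 2 := pow_pos (hh x) 2
    have hl := Real.log_le_sub_one_of_pos (div_pos hx2 hm0)
    rw [Real.log_div hx2.ne' hm0.ne'] at hl
    have hl2 := mul_le_mul_of_nonneg_left hl hx2.le
    have e4 : h x ^ 2 * (h x ^ 2 / m - 1) = (h x ^ 2 - m) ^ 2 / m + (h x ^ 2 - m) := by
      field_simp [hm0.ne']
      ring
    rw [e4] at hl2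
    linarith
  have h2 : ∀ x, π x * (h x ^ 2 - m) ^ 2 / m ≤ π x * (4 / p * D ^ 2) := by
    intro x
    rw [mul_div_assoc]
    refine mul_le_mul_of_nonneg_left ?_ (hπ0 x).le
    rw [div_le_iff₀ hm0]
    have h3 : (h x ^ 2 - m) ^ 2 ≤ (2 * h z * D) ^ 2 := by
      rw [← sq_abs]
      exact pow_le_pow_left₀ (abs_nonneg _) (hdev x) 2
    calc (h x ^ 2 - m) ^ 2 ≤ (2 * h z * D) ^ 2 := h3
      _ = 4 / p * D ^ 2 * (p * h z ^ 2) := by field_simp; ring
      _ ≤ 4 / p * D ^ 2 * m := mul_le_mul_of_nonneg_left hm1 (by positivity)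
  calc ent π (fun x => h x ^ 2) ≤ ∑ x, π x * (h x ^ 2 - m) ^ 2 / m := h1
    _ ≤ ∑ x, π x * (4 / p * D ^ 2) := Finset.sum_le_sum fun x _ => h2 x
    _ = 4 / p * D ^ 2 := by rw [← Finset.sum_mul, hs, one_mul]

/-- Elementary inequality `(e^u - e^v)(u - v) ≥ 2 (e^(u/2) - e^(v/2))^2`. -/
theorem exp_diff_ge (u v : ℝ) :
    2 * (Real.exp (u / 2) - Real.exp (v / 2)) ^ 2 ≤ (Real.exp u - Real.exp v) * (u - v) := by
  wlog huv : v ≤ u generalizing u v
  · have := this v u (le_of_not_ge huv)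
    nlinarith
  have e1 : Real.exp u = Real.exp (u / 2) ^ 2 := by
    rw [← Real.exp_nat_mul]; congr 1; push_cast; ring
  have e2 : Real.exp v = Real.exp (v / 2) ^ 2 := by
    rw [← Real.exp_nat_mul]; congr 1; push_cast; ring
  have h1 : Real.exp (v / 2) ≤ Real.exp (u / 2) := Real.exp_le_exp.mpr (by linarith)
  have hp := Real.exp_pos (u / 2)
  have hq := Real.exp_pos (v / 2)
  have h2 : 1 - (u - v) / 2 ≤ Real.exp (-((u - v) / 2)) := by
    have := Real.add_one_le_exp (-((u - v) / 2)); linarith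
  have h3 : Real.exp (v / 2) = Real.exp (u / 2) * Real.exp (-((u - v) / 2)) := by
    rw [← Real.exp_add]; congr 1; ring
  have h4 : 2 * (Real.exp (u / 2) - Real.exp (v / 2)) ≤ Real.exp (u / 2) * (u - v) := by
    have := mul_le_mul_of_nonneg_left h2 hp.le
    rw [← h3] at this
    nlinarith
  rw [e1, e2]
  set a := Real.exp (u / 2)
  set b := Real.exp (v / 2)
  have h5 : 0 ≤ a - b := by linarith
  have h6 : (a ^ 2 - b ^ 2) * (u - v) = (a - b) * (a * (u - v)) + (a - b) * (b * (u - v)) := by ring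
  rw [h6]
  have h7 : (a - b) * (2 * (a - b)) ≤ (a - b) * (a * (u - v)) := mul_le_mul_of_nonneg_left h4 h5
  have h8 : 0 ≤ (a - b) * (b * (u - v)) := mul_nonneg h5 (mul_nonneg hq.le (by linarith))
  nlinarith

/-- Upper bound for the relative entropy: if `μ = h₁ + h₂` with `h₁ ≥ 0` of mass `η` and
`0 ≤ h₂ ≤ κ π`, and all weights are at least `exp (-L)`, then
`D(μ ‖ π) ≤ η (L + κ) + (κ - 1)`. -/
theorem relEnt_le {π μ h₁ : Ω → ℝ} {κ L η : ℝ} (hπ : ∀ x, 0 < π x)
    (hL : ∀ x, Real.exp (-L) ≤ π x) (hμ0 : ∀ x, 0 ≤ μ x) (hμ1 : ∑ x, μ x = 1)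
    (h₁0 : ∀ x, 0 ≤ h₁ x) (h₁μ : ∀ x, h₁ x ≤ μ x) (h₁s : ∑ x, h₁ x ≤ η) (hκ : 1 ≤ κ) (hL0 : 0 ≤ L)
    (h₂ : ∀ x, μ x - h₁ x ≤ κ * π x) :
    relEnt μ π ≤ η * (L + κ) + (κ - 1) := by
  have hμle : ∀ x, μ x ≤ 1 := fun x => by
    rw [← hμ1]
    exact Finset.single_le_sum (f := μ) (fun y _ => hμ0 y) (Finset.mem_univ x)
  have key : ∀ x, μ x * Real.log (μ x / π x) ≤
      h₁ x * L + κ * h₁ x + (μ x - h₁ x) * (κ - 1) := by
    intro x
    rcases (hμ0 x).eq_or_lt with h0 | h0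
    · have h1 : h₁ x = 0 := le_antisymm (by rw [h0]; exact h₁μ x) (h₁0 x)
      rw [← h0, h1]
      simp
    · have hA : Real.log (μ x / π x) ≤ L := by
        have h3 : μ x / π x ≤ Real.exp L := by
          rw [div_le_iff₀ (hπ x)]
          have h4 : Real.exp L * Real.exp (-L) = 1 := by rw [← Real.exp_add]; simp
          calc μ x ≤ 1 := hμle x
            _ = Real.exp L * Real.exp (-L) := h4.symm
            _ ≤ Real.exp L * π x := mul_le_mul_of_nonneg_left (hL x) (Real.exp_pos _).le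
        calc Real.log (μ x / π x) ≤ Real.log (Real.exp L) :=
              Real.log_le_log (div_pos h0 (hπ x)) h3
          _ = L := Real.log_exp L
      have hB : Real.log (μ x / π x) ≤ μ x / π x - 1 :=
        Real.log_le_sub_one_of_pos (div_pos h0 (hπ x))
      have hC : 0 ≤ μ x - h₁ x := by linarith [h₁μ x]
      have e : μ x * Real.log (μ x / π x) =
          h₁ x * Real.log (μ x / π x) + (μ x - h₁ x) * Real.log (μ x / π x) := by ring
      rw [e]
      have h5 : h₁ x * Real.log (μ x / π x) ≤ h₁ x * L := mul_le_mul_of_nonneg_left hA (h₁0 x)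
      have h6 : (μ x - h₁ x) * Real.log (μ x / π x) ≤ (μ x - h₁ x) * (μ x / π x - 1) :=
        mul_le_mul_of_nonneg_left hB hC
      have h7 : (μ x - h₁ x) / π x ≤ κ := by
        rw [div_le_iff₀ (hπ x)]; exact h₂ x
      have h8 : (μ x - h₁ x) * (μ x / π x - 1) =
          (μ x - h₁ x) / π x * h₁ x + (μ x - h₁ x) * ((μ x - h₁ x) / π x - 1) := by
        field_simp [(hπ x).ne']
        ring
      rw [h8] at h6
      have h9 : (μ x - h₁ x) / π x * h₁ x ≤ κ * h₁ x := mul_le_mul_of_nonneg_right h7 (h₁0 x)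
      have h10 : (μ x - h₁ x) * ((μ x - h₁ x) / π x - 1) ≤ (μ x - h₁ x) * (κ - 1) :=
        mul_le_mul_of_nonneg_left (by linarith) hC
      linarith
  have hsum : relEnt μ π ≤ ∑ x, (h₁ x * L + κ * h₁ x + (μ x - h₁ x) * (κ - 1)) :=
    Finset.sum_le_sum fun x _ => key x
  have e : ∑ x, (h₁ x * L + κ * h₁ x + (μ x - h₁ x) * (κ - 1)) =
      (∑ x, h₁ x) * (L + κ) + (1 - ∑ x, h₁ x) * (κ - 1) := by
    rw [← hμ1, Finset.sum_mul, ← Finset.sum_sub_distrib, Finset.sum_mul, ← Finset.sum_add_distrib]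
    refine Finset.sum_congr rfl fun x _ => by ring
  rw [e] at hsum
  have hs0 : 0 ≤ ∑ x, h₁ x := Finset.sum_nonneg fun x _ => h₁0 x
  nlinarith [mul_le_mul_of_nonneg_right h₁s (by linarith : (0 : ℝ) ≤ L + κ),
    mul_nonneg hs0 (by linarith : (0 : ℝ) ≤ κ - 1)]

end Pool.Agent.H857R3.MLS
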