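import Mathlib
import Pool.Agent.H857R3.MLS.Defs

/-!
# The birth and death chain of the counterexample

State space `{0, ..., N}`; state `0` carries almost all the mass, the other states have weights
`w 4^{-j}` with `w = exp (-2^N)`, and the conductance of the edge `{j, j+1}` is `w 4^{-j} / 5`.
-/

set_option autoImplicit false
set_option linter.unusedSectionVars false

open Finset Matrix

namespace Pool.Agent.H857R3.MLS

variable {N : ℕ}

/-- The small weight. -/
noncomputable def w (N : ℕ) : ℝ := Real.exp (-(2 : ℝ) ^ N)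

theorem w_pos (N : ℕ) : 0 < w N := Real.exp_pos _

/-- The reversible probability. -/
noncomputable def pi (N : ℕ) (x : Fin (N + 1)) : ℝ :=
  if (x : ℕ) = 0 then 1 - ∑ i : Fin N, w N * (1 / 4) ^ ((i : ℕ) + 1)
  else w N * (1 / 4) ^ (x : ℕ)

/-- The conductance of the edge `{j, j+1}`. -/
noncomputable def c (N : ℕ) (j : ℕ) : ℝ := 1 / 5 * w N * (1 / 4) ^ j

theorem c_pos (N j : ℕ) : 0 < c N j := by
  have := w_pos N
  unfold c
  positivity

/-- The difference of the indicators of the end points of the edge `{j, j+1}`. -/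
def d (j : Fin N) (x : Fin (N + 1)) : ℝ :=
  (if x = j.castSucc then 1 else 0) - (if x = j.succ then 1 else 0)

/-- The transition matrix. -/
noncomputable def P (N : ℕ) : Matrix (Fin (N + 1)) (Fin (N + 1)) ℝ := fun x y =>
  (if x = y then 1 else 0) - 1 / pi N x * ∑ j : Fin N, c N j * d j x * d j y

theorem sum_cast (F : ℕ → ℝ) (x : Fin (N + 1)) :
    ∑ j : Fin N, (if x = j.castSucc then F j else 0) = if (x : ℕ) < N then F x else 0 := by
  refine Fin.lastCases ?_ (fun k => ?_) x
  · simp only [Fin.val_last, lt_irrefl, if_false]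
    refine Finset.sum_eq_zero fun j _ => ?_
    rw [if_neg]
    exact fun h => absurd (congrArg Fin.val h) (by simp [Fin.val_last, (j.isLt).ne'])
  · simp only [Fin.castSucc_inj, Finset.sum_ite_eq, Finset.mem_univ, if_true, Fin.val_castSucc,
      k.isLt]

theorem sum_succ (F : ℕ → ℝ) (x : Fin (N + 1)) :
    ∑ j : Fin N, (if x = j.succ then F j else 0) = if 0 < (x : ℕ) then F ((x : ℕ) - 1) else 0 := by
  refine Fin.cases ?_ (fun k => ?_) x
  · simp only [Fin.val_zero, lt_irrefl, if_false]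
    refine Finset.sum_eq_zero fun j _ => ?_
    rw [if_neg]
    exact (Fin.succ_ne_zero j).symm
  · simp only [Fin.succ_inj, Finset.sum_ite_eq, Finset.mem_univ, if_true, Fin.val_succ,
      Nat.succ_pos, Nat.add_sub_cancel]

theorem sum_d (j : Fin N) (g : Fin (N + 1) → ℝ) :
    ∑ y, d j y * g y = g j.castSucc - g j.succ := by
  simp only [d, sub_mul, ite_mul, one_mul, zero_mul, Finset.sum_sub_distrib, Finset.sum_ite_eq',
    Finset.mem_univ, if_true]

theorem castSucc_ne_succ (j : Fin N) : j.castSucc ≠ j.succ := by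
  intro h
  have := congrArg Fin.val h
  simp at this

theorem d_sq (j : Fin N) (x : Fin (N + 1)) :
    d j x * d j x = (if x = j.castSucc then 1 else 0) + (if x = j.succ then 1 else 0) := by
  unfold d
  by_cases h1 : x = j.castSucc
  · have h2 : x ≠ j.succ := h1 ▸ castSucc_ne_succ j
    simp [h1, castSucc_ne_succ j]
  · by_cases h2 : x = j.succ
    · simp [h2, (castSucc_ne_succ j).symm]
    · simp [h1, h2]

theorem d_mul_nonpos (j : Fin N) {x y : Fin (N + 1)} (h : x ≠ y) : d j x * d j y ≤ 0 := by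
  unfold d
  by_cases h1 : x = j.castSucc
  · have h2 : y ≠ j.castSucc := fun h' => h (h1.trans h'.symm)
    have h3 : x ≠ j.succ := h1 ▸ castSucc_ne_succ j
    simp only [h1, h2, castSucc_ne_succ j, if_true, if_false]
    split_ifs <;> norm_num
  · by_cases h2 : x = j.succ
    · have h3 : y ≠ j.succ := fun h' => h (h2.trans h'.symm)
      simp only [h2, h3, (castSucc_ne_succ j).symm, if_true, if_false]
      split_ifs <;> norm_num
    · simp [h1, h2]

theorem S_le (N : ℕ) : ∑ i : Fin N, w N * (1 / 4 : ℝ) ^ ((i : ℕ) + 1) ≤ w N := by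
  have h := Fin.sum_univ_eq_sum_range (fun i => w N * (1 / 4 : ℝ) ^ (i + 1)) N
  rw [h]
  have key : ∀ n : ℕ, ∑ i ∈ Finset.range n, (1 / 4 : ℝ) ^ (i + 1) ≤ 1 - (1 / 4) ^ n := by
    intro n
    induction n with
    | zero => simp
    | succ n ih =>
      rw [Finset.sum_range_succ]
      have : (0 : ℝ) < (1 / 4) ^ n := by positivity
      have e : (1 / 4 : ℝ) ^ (n + 1) = (1 / 4) ^ n / 4 := by rw [pow_succ]; ring
      linarith
  rw [← Finset.mul_sum]
  have h1 : ∑ i ∈ Finset.range N, (1 / 4 : ℝ) ^ (i + 1) ≤ 1 := by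
    have : (0 : ℝ) < (1 / 4) ^ N := by positivity
    linarith [key N]
  calc w N * ∑ i ∈ Finset.range N, (1 / 4 : ℝ) ^ (i + 1) ≤ w N * 1 :=
        mul_le_mul_of_nonneg_left h1 (w_pos N).le
    _ = w N := mul_one _

theorem w_le {N : ℕ} (hN : 2 ≤ N) : w N ≤ 1 / 16 := by
  have h1 : (4 : ℝ) ≤ 2 ^ N := by
    calc (4 : ℝ) = 2 ^ 2 := by norm_num
      _ ≤ 2 ^ N := pow_le_pow_right₀ (by norm_num) hN
  have h2 : w N ≤ Real.exp (-4) := Real.exp_le_exp.mpr (by linarith)
  have h3 : (16 : ℝ) ≤ Real.exp 4 := by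
    have h4 : (2 : ℝ) ≤ Real.exp 1 := by
      have := Real.add_one_le_exp (1 : ℝ); linarith
    calc (16 : ℝ) = 2 ^ 4 := by norm_num
      _ ≤ Real.exp 1 ^ 4 := pow_le_pow_left₀ (by norm_num) h4 4
      _ = Real.exp 4 := by rw [← Real.exp_nat_mul]; norm_num
  calc w N ≤ Real.exp (-4) := h2
    _ = (Real.exp 4)⁻¹ := Real.exp_neg 4
    _ ≤ (16 : ℝ)⁻¹ := inv_anti₀ (by norm_num) h3
    _ = 1 / 16 := by norm_num

theorem pi_zero_ge {N : ℕ} (hN : 2 ≤ N) : 15 / 16 ≤ pi N 0 := by
  unfold pi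
  simp only [Fin.val_zero, if_true]
  have := S_le N
  have := w_le hN
  linarith

theorem pi_zero_le (N : ℕ) : pi N 0 ≤ 1 := by
  unfold pi
  simp only [Fin.val_zero, if_true]
  have h : 0 ≤ ∑ i : Fin N, w N * (1 / 4 : ℝ) ^ ((i : ℕ) + 1) :=
    Finset.sum_nonneg fun i _ => by have := w_pos N; positivity
  linarith

theorem pi_succ (i : Fin N) : pi N i.succ = w N * (1 / 4) ^ ((i : ℕ) + 1) := by
  unfold pi
  simp

theorem pi_pos {N : ℕ} (hN : 2 ≤ N) (x : Fin (N + 1)) : 0 < pi N x := by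
  refine Fin.cases ?_ (fun i => ?_) x
  · linarith [pi_zero_ge hN]
  · rw [pi_succ]
    have := w_pos N
    positivity

theorem pi_sum (N : ℕ) : ∑ x, pi N x = 1 := by
  rw [Fin.sum_univ_succ]
  simp_rw [pi_succ]
  unfold pi
  simp

theorem pi_ge {N : ℕ} (hN : 2 ≤ N) (x : Fin (N + 1)) :
    Real.exp (-((2 : ℝ) ^ N + N * Real.log 4)) ≤ pi N x := by
  have e : Real.exp (-((2 : ℝ) ^ N + N * Real.log 4)) = w N * (1 / 4) ^ N := by
    rw [neg_add, Real.exp_add, w]
    congr 1
    rw [← mul_neg, ← Real.log_inv, Real.exp_nat_mul, Real.exp_log (by norm_num)]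
    norm_num
  rw [e]
  refine Fin.cases ?_ (fun i => ?_) x
  · have h1 : (1 / 4 : ℝ) ^ N ≤ 1 := pow_le_one₀ (by norm_num) (by norm_num)
    have h2 := w_le hN
    have h3 := pi_zero_ge hN
    have h4 := w_pos N
    nlinarith
  · rw [pi_succ]
    refine mul_le_mul_of_nonneg_left ?_ (w_pos N).le
    exact pow_le_pow_of_le_one (by norm_num) (by norm_num) i.isLt

/-- The total conductance at `x` is at most `π(x)`. -/
theorem cond_le {N : ℕ} (hN : 2 ≤ N) (x : Fin (N + 1)) :
    ∑ j : Fin N, c N j * (d j x * d j x) ≤ pi N x := by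
  have e : ∑ j : Fin N, c N j * (d j x * d j x) =
      ∑ j : Fin N, (if x = j.castSucc then c N j else 0) +
      ∑ j : Fin N, (if x = j.succ then c N j else 0) := by
    rw [← Finset.sum_add_distrib]
    refine Finset.sum_congr rfl fun j _ => ?_
    rw [d_sq, mul_add, mul_ite, mul_ite, mul_one, mul_zero]
  rw [e, sum_cast (c N), sum_succ (c N)]
  refine Fin.cases ?_ (fun i => ?_) x
  · have h1 : 0 < N := by omega
    simp only [Fin.val_zero, h1, if_true, lt_irrefl, if_false, add_zero]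
    have h2 := pi_zero_ge hN
    have h3 := w_le hN
    simp only [c, pow_zero, mul_one]
    linarith
  · rw [pi_succ]
    simp only [Fin.val_succ, Nat.succ_pos, if_true, Nat.add_sub_cancel]
    have h1 : (if (i : ℕ) + 1 < N then c N ((i : ℕ) + 1) else 0) ≤ c N ((i : ℕ) + 1) := by
      split_ifs
      · exact le_rfl
      · exact (c_pos N _).le
    have h2 : c N ((i : ℕ) + 1) + c N (i : ℕ) = w N * (1 / 4) ^ ((i : ℕ) + 1) := by
      simp only [c, pow_succ]
      ring
    linarith

theorem P_nonneg {N : ℕ} (hN : 2 ≤ N) (x y : Fin (N + 1)) : 0 ≤ P N x y := by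
  have hx := pi_pos hN x
  unfold P
  by_cases h : x = y
  · subst h
    rw [if_pos rfl]
    have h1 := cond_le hN x
    have e : ∑ j : Fin N, c N j * d j x * d j x = ∑ j : Fin N, c N j * (d j x * d j x) :=
      Finset.sum_congr rfl fun j _ => by ring
    rw [e, sub_nonneg, one_div, inv_mul_le_iff₀ hx, mul_one]
    exact h1
  · rw [if_neg h, zero_sub, neg_nonneg]
    refine mul_nonpos_of_nonneg_of_nonpos (by positivity) ?_
    refine Finset.sum_nonpos fun j _ => ?_
    rw [mul_assoc]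
    exact mul_nonpos_of_nonneg_of_nonpos (c_pos N j).le (d_mul_nonpos j h)

/-- The action of `P` on functions. -/
theorem P_apply (N : ℕ) (x : Fin (N + 1)) (g : Fin (N + 1) → ℝ) :
    ∑ y, P N x y * g y =
      g x - 1 / pi N x * ∑ j : Fin N, c N j * d j x * (g j.castSucc - g j.succ) := by
  unfold P
  simp only [sub_mul, ite_mul, one_mul, zero_mul, Finset.sum_sub_distrib, Finset.sum_ite_eq,
    Finset.mem_univ, if_true]
  congr 1
  simp_rw [mul_assoc, ← Finset.mul_sum]
  congr 1
  simp_rw [Finset.sum_mul]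
  rw [Finset.sum_comm]
  refine Finset.sum_congr rfl fun j _ => ?_
  rw [← sum_d j g, Finset.mul_sum, Finset.mul_sum]
  refine Finset.sum_congr rfl fun y _ => by ring

theorem P_row (N : ℕ) (x : Fin (N + 1)) : ∑ y, P N x y = 1 := by
  have h := P_apply N x (fun _ => 1)
  simpa using h

theorem P_rev {N : ℕ} (hN : 2 ≤ N) (x y : Fin (N + 1)) :
    pi N x * P N x y = pi N y * P N y x := by
  have hx := (pi_pos hN x).ne'
  have hy := (pi_pos hN y).ne'
  unfold P
  by_cases h : x = y
  · subst h; rfl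
  · rw [if_neg h, if_neg (Ne.symm h)]
    have e : ∑ j : Fin N, c N j * d j x * d j y = ∑ j : Fin N, c N j * d j y * d j x :=
      Finset.sum_congr rfl fun j _ => by ring
    rw [e]
    field_simp
    ring

theorem P_up {N : ℕ} (hN : 2 ≤ N) (k : Fin N) : 0 < P N k.castSucc k.succ := by
  have hx := pi_pos hN k.castSucc
  unfold P
  rw [if_neg (castSucc_ne_succ k), zero_sub, neg_pos]
  refine mul_neg_of_pos_of_neg (by positivity) ?_
  refine Finset.sum_neg' (fun j _ => ?_) ⟨k, Finset.mem_univ _, ?_⟩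
  · rw [mul_assoc]
    exact mul_nonpos_of_nonneg_of_nonpos (c_pos N j).le (d_mul_nonpos j (castSucc_ne_succ k))
  · have h1 : d k k.castSucc = 1 := by simp [d, castSucc_ne_succ k]
    have h2 : d k k.succ = -1 := by simp [d, (castSucc_ne_succ k).symm]
    rw [h1, h2]
    have := c_pos N k
    linarith

theorem P_down {N : ℕ} (hN : 2 ≤ N) (k : Fin N) : 0 < P N k.succ k.castSucc := by
  have h := P_rev hN k.castSucc k.succ
  have h1 := mul_pos (pi_pos hN k.castSucc) (P_up hN k)
  rw [h] at h1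
  exact pos_of_mul_pos_right h1 (pi_pos hN _).le

theorem P_irred {N : ℕ} (hN : 2 ≤ N) (x y : Fin (N + 1)) : ∃ n : ℕ, 0 < (P N ^ n) x y := by
  have comp : ∀ a b z : Fin (N + 1), ∀ m n : ℕ, 0 < (P N ^ m) a b → 0 < (P N ^ n) b z →
      0 < (P N ^ (m + n)) a z := by
    intro a b z m n h1 h2
    rw [pow_add, Matrix.mul_apply]
    exact Finset.sum_pos' (fun u _ => mul_nonneg (pow_nonneg_entry (P_nonneg hN) m a u)
      (pow_nonneg_entry (P_nonneg hN) n u z)) ⟨b, Finset.mem_univ _, mul_pos h1 h2⟩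
  have h1 : ∀ k : ℕ, ∀ hk : k < N + 1, ∃ n : ℕ, 0 < (P N ^ n) ⟨k, hk⟩ 0 := by
    intro k
    induction k with
    | zero => intro hk; exact ⟨0, by simp⟩
    | succ k ih =>
      intro hk
      obtain ⟨n, hn⟩ := ih (by omega)
      refine ⟨1 + n, comp _ ⟨k, by omega⟩ _ 1 n ?_ hn⟩
      rw [pow_one]
      exact P_down hN ⟨k, by omega⟩
  have h2 : ∀ k : ℕ, ∀ hk : k < N + 1, ∃ n : ℕ, 0 < (P N ^ n) 0 ⟨k, hk⟩ := by
    intro k
    induction k with
    | zero => intro hk; exact ⟨0, by simp⟩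
    | succ k ih =>
      intro hk
      obtain ⟨n, hn⟩ := ih (by omega)
      refine ⟨n + 1, comp _ ⟨k, by omega⟩ _ n 1 hn ?_⟩
      rw [pow_one]
      exact P_up hN ⟨k, by omega⟩
  obtain ⟨m, hm⟩ := h1 x x.isLt
  obtain ⟨n, hn⟩ := h2 y y.isLt
  exact ⟨m + n, comp _ 0 _ m n hm hn⟩

theorem chain {N : ℕ} (hN : 2 ≤ N) : IsReversibleChain (P N) (pi N) where
  nonneg := P_nonneg hN
  row_sum := P_row N
  irreducible := P_irred hN
  prob_nonneg := fun x => (pi_pos hN x).le
  prob_sum := pi_sum N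
  reversible := P_rev hN

/-- The Dirichlet form as a sum over the edges. -/
theorem dirichlet_eq {N : ℕ} (hN : 2 ≤ N) (f g : Fin (N + 1) → ℝ) :
    dirichlet (P N) (pi N) f g =
      ∑ j : Fin N, c N j * ((f j.castSucc - f j.succ) * (g j.castSucc - g j.succ)) := by
  unfold dirichlet
  have h : ∀ x, pi N x * ((f x - ∑ y, P N x y * f y) * g x) =
      ∑ j : Fin N, c N j * (f j.castSucc - f j.succ) * (d j x * g x) := by
    intro x
    rw [P_apply, sub_sub_cancel, one_div, mul_assoc, mul_inv_cancel_left₀ (pi_pos hN x).ne',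
      Finset.sum_mul]
    refine Finset.sum_congr rfl fun j _ => by ring
  simp_rw [h]
  rw [Finset.sum_comm]
  refine Finset.sum_congr rfl fun j _ => ?_
  rw [← Finset.mul_sum, sum_d]
  ring

end Pool.Agent.H857R3.MLS
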