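import Mathlib
import Pool.Agent.H857R3.MLS.Chain

/-!
# Mixing, hitting and entropy production of the birth and death chain
-/

set_option autoImplicit false
set_option linter.unusedSectionVars false

open Finset Matrix

namespace Pool.Agent.H857R3.MLS

variable {N : ℕ}

/-- The Lyapunov function. -/
def V (N : ℕ) (x : Fin (N + 1)) : ℝ := 2 ^ (x : ℕ)

theorem V_ge (x : Fin (N + 1)) : 1 ≤ V N x := one_le_pow₀ (by norm_num)

theorem V_le (x : Fin (N + 1)) : V N x ≤ 2 ^ N :=
  pow_le_pow_right₀ (by norm_num) (Nat.lt_succ_iff.mp x.isLt)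

theorem killed_V {N : ℕ} (hN : 2 ≤ N) {A : Finset (Fin (N + 1))} (hA : (0 : Fin (N + 1)) ∉ A)
    (x : Fin (N + 1)) : ∑ y, killed (P N) A x y * V N y ≤ 4 / 5 * V N x := by
  by_cases hx : x ∈ A
  swap
  · have h0 : ∀ y, killed (P N) A x y * V N y = 0 := by
      intro y
      unfold killed
      rw [if_neg (fun h => hx h.1), zero_mul]
    simp_rw [h0]
    simp only [Finset.sum_const_zero]
    have := V_ge x
    linarith
  have hx0 : x ≠ 0 := fun h => hA (h ▸ hx)
  obtain ⟨i, rfl⟩ := Fin.exists_succ_eq.mpr hx0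
  -- compare with the function that vanishes at `0`
  have h1 : ∑ y, killed (P N) A i.succ y * V N y ≤
      ∑ y, P N i.succ y * (fun y : Fin (N + 1) => if (y : ℕ) = 0 then (0 : ℝ) else 2 ^ (y : ℕ)) y := by
    refine Finset.sum_le_sum fun y _ => ?_
    have hP := P_nonneg hN i.succ y
    by_cases hy : y ∈ A
    · have hy0 : (y : ℕ) ≠ 0 := fun h => hA ((Fin.ext h : y = 0) ▸ hy)
      simp only [killed, hx, hy, and_self, if_true, hy0, if_false, V]
      exact le_rfl
    · simp only [killed, hy, and_false, if_false, zero_mul]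
      refine mul_nonneg hP ?_
      split_ifs
      · exact le_rfl
      · positivity
  refine h1.trans ?_
  rw [P_apply]
  have hpi := pi_pos hN i.succ
  set G : ℕ → ℝ := fun j => (if j = 0 then (0 : ℝ) else 2 ^ j) - 2 ^ (j + 1) with hG
  have e : ∑ j : Fin N, c N j * d j i.succ *
      ((fun y : Fin (N + 1) => if (y : ℕ) = 0 then (0 : ℝ) else 2 ^ (y : ℕ)) j.castSucc -
        (fun y : Fin (N + 1) => if (y : ℕ) = 0 then (0 : ℝ) else 2 ^ (y : ℕ)) j.succ) =
      ∑ j : Fin N, (if i.succ = j.castSucc then c N j * G j else 0) -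
      ∑ j : Fin N, (if i.succ = j.succ then c N j * G j else 0) := by
    rw [← Finset.sum_sub_distrib]
    refine Finset.sum_congr rfl fun j _ => ?_
    simp only [Fin.val_castSucc, Fin.val_succ, Nat.succ_ne_zero, if_false, hG, d]
    split_ifs <;> ring
  rw [e, sum_cast (fun j => c N j * G j), sum_succ (fun j => c N j * G j)]
  simp only [Fin.val_succ, Nat.succ_pos, if_true, Nat.add_sub_cancel, Nat.succ_ne_zero, if_false]
  have hpi' : pi N i.succ = w N * (1 / 4) ^ ((i : ℕ) + 1) := pi_succ i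
  have hc1 : c N ((i : ℕ) + 1) = 1 / 5 * pi N i.succ := by rw [hpi', c]; ring
  have hc0 : c N (i : ℕ) = 4 / 5 * pi N i.succ := by rw [hpi', c, pow_succ]; ring
  have hG1 : G ((i : ℕ) + 1) = -(2 : ℝ) ^ ((i : ℕ) + 1) := by
    simp only [hG, Nat.succ_ne_zero, if_false]; ring
  have hG0 : G (i : ℕ) ≤ -(2 : ℝ) ^ (i : ℕ) := by
    simp only [hG]
    have : (0 : ℝ) < 2 ^ (i : ℕ) := by positivity
    split_ifs with h
    · rw [pow_succ]; linarith
    · rw [pow_succ]; linarith
  have h2 : -(1 / 5 * pi N i.succ * 2 ^ ((i : ℕ) + 1)) ≤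
      (if (i : ℕ) + 1 < N then c N ((i : ℕ) + 1) * G ((i : ℕ) + 1) else 0) := by
    split_ifs
    · rw [hc1, hG1]; linarith
    · have : (0 : ℝ) < 2 ^ ((i : ℕ) + 1) := by positivity
      have := mul_pos (mul_pos (by norm_num : (0 : ℝ) < 1 / 5) hpi) this
      linarith
  have h3 : c N (i : ℕ) * G (i : ℕ) ≤ -(4 / 5 * pi N i.succ * 2 ^ (i : ℕ)) := by
    rw [hc0]
    have := mul_le_mul_of_nonneg_left hG0 (by positivity : (0 : ℝ) ≤ 4 / 5 * pi N i.succ)
    linarith
  have h4 : 1 / 5 * pi N i.succ * 2 ^ ((i : ℕ) + 1) ≤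
      (if (i : ℕ) + 1 < N then c N ((i : ℕ) + 1) * G ((i : ℕ) + 1) else 0) -
        c N (i : ℕ) * G (i : ℕ) := by
    have e2 : (2 : ℝ) ^ ((i : ℕ) + 1) = 2 * 2 ^ (i : ℕ) := by rw [pow_succ]; ring
    rw [e2] at h2 ⊢
    linarith
  have h5 := mul_le_mul_of_nonneg_left h4 (by positivity : (0 : ℝ) ≤ 1 / pi N i.succ)
  have h6 : 1 / pi N i.succ * (1 / 5 * pi N i.succ * 2 ^ ((i : ℕ) + 1)) =
      1 / 5 * 2 ^ ((i : ℕ) + 1) := by
    field_simp
  rw [h6] at h5
  simp only [V, Fin.val_succ]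
  linarith

/-- Survival in a set avoiding the heavy state. -/
theorem stay_le {N : ℕ} (hN : 2 ≤ N) {A : Finset (Fin (N + 1))} (hA : (0 : Fin (N + 1)) ∉ A)
    {t : ℝ} (ht : 0 ≤ t) (x : Fin (N + 1)) (B : Finset (Fin (N + 1))) :
    ∑ y ∈ B, NormedSpace.exp (-t • (1 - killed (P N) A)) x y ≤ Real.exp (-(t / 5)) * 2 ^ N := by
  have h := heat_lyapunov (killed_nonneg (P_nonneg hN) A) V_ge (by norm_num : (0 : ℝ) ≤ 4 / 5)
    (killed_V hN hA) ht x B
  refine h.trans ?_
  have e : -(t * (1 - 4 / 5)) = -(t / 5) := by ring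
  rw [e]
  exact mul_le_mul_of_nonneg_left (V_le x) (Real.exp_pos _).le

theorem pow_from_zero {N : ℕ} (hN : 2 ≤ N) (n : ℕ) (y : Fin (N + 1)) :
    (P N ^ n) 0 y ≤ pi N y / pi N 0 := by
  have hrev : ∀ n : ℕ, ∀ x y, pi N x * (P N ^ n) x y = pi N y * (P N ^ n) y x := by
    intro n
    induction n with
    | zero =>
      intro x y
      by_cases h : x = y
      · subst h; rfl
      · simp [h, Ne.symm h]
    | succ n ih =>
      intro x y
      rw [pow_succ, Matrix.mul_apply, Finset.mul_sum]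
      have e : ∀ z, pi N x * ((P N ^ n) x z * P N z y) = pi N y * (P N y z * (P N ^ n) z x) := by
        intro z
        calc pi N x * ((P N ^ n) x z * P N z y) = (pi N x * (P N ^ n) x z) * P N z y := by ring
          _ = (pi N z * (P N ^ n) z x) * P N z y := by rw [ih]
          _ = (pi N z * P N z y) * (P N ^ n) z x := by ring
          _ = (pi N y * P N y z) * (P N ^ n) z x := by rw [P_rev hN]
          _ = pi N y * (P N y z * (P N ^ n) z x) := by ring
      simp_rw [e]
      rw [← Finset.mul_sum, ← Matrix.mul_apply, ← pow_succ', ← pow_succ]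
  rw [le_div_iff₀ (pi_pos hN 0), mul_comm, hrev n 0 y]
  have h1 : (P N ^ n) y 0 ≤ 1 := by
    rw [← pow_row_sum (P_row N) n y]
    exact Finset.single_le_sum (f := fun z => (P N ^ n) y z)
      (fun z _ => pow_nonneg_entry (P_nonneg hN) n y z) (Finset.mem_univ 0)
  calc pi N y * (P N ^ n) y 0 ≤ pi N y * 1 := mul_le_mul_of_nonneg_left h1 (pi_pos hN y).le
    _ = pi N y := mul_one _

/-- The complement of the heavy state. -/
def A0 (N : ℕ) : Finset (Fin (N + 1)) := Finset.univ.erase 0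

theorem not_mem_A0 : (0 : Fin (N + 1)) ∉ A0 N := by simp [A0]

theorem mem_A0 {x : Fin (N + 1)} (hx : x ≠ 0) : x ∈ A0 N := by simp [A0, hx]

theorem pow_decomp {N : ℕ} (hN : 2 ≤ N) (n : ℕ) (x y : Fin (N + 1)) :
    (P N ^ n) x y ≤ (killed (P N) (A0 N) ^ n) x y + pi N y / pi N 0 := by
  have hK := killed_nonneg (P_nonneg hN) (A0 N)
  have hq : ∀ y, 0 ≤ pi N y / pi N 0 := fun y => div_nonneg (pi_pos hN y).le (pi_pos hN 0).le
  induction n generalizing x with
  | zero => simp only [pow_zero]; linarith [hq y]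
  | succ n ih =>
    by_cases hx : x = 0
    · subst hx
      have h1 := pow_from_zero hN (n + 1) y
      have h2 := pow_nonneg_entry hK (n + 1) 0 y
      linarith
    · rw [pow_succ', Matrix.mul_apply, pow_succ', Matrix.mul_apply]
      have h1 : ∀ z, P N x z * (P N ^ n) z y ≤
          killed (P N) (A0 N) x z * (killed (P N) (A0 N) ^ n) z y +
            P N x z * (pi N y / pi N 0) := by
        intro z
        by_cases hz : z = 0
        · subst hz
          have h2 : killed (P N) (A0 N) x 0 = 0 := by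
            unfold killed
            rw [if_neg (fun h => not_mem_A0 h.2)]
          rw [h2, zero_mul, zero_add]
          exact mul_le_mul_of_nonneg_left (pow_from_zero hN n y) (P_nonneg hN x 0)
        · have h2 : killed (P N) (A0 N) x z = P N x z := by
            unfold killed
            rw [if_pos ⟨mem_A0 hx, mem_A0 hz⟩]
          rw [h2, ← mul_add]
          exact mul_le_mul_of_nonneg_left (ih z) (P_nonneg hN x z)
      calc ∑ z, P N x z * (P N ^ n) z y ≤ ∑ z, (killed (P N) (A0 N) x z *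
            (killed (P N) (A0 N) ^ n) z y + P N x z * (pi N y / pi N 0)) :=
            Finset.sum_le_sum fun z _ => h1 z
        _ = ∑ z, killed (P N) (A0 N) x z * (killed (P N) (A0 N) ^ n) z y + pi N y / pi N 0 := by
            rw [Finset.sum_add_distrib, ← Finset.sum_mul, P_row, one_mul]

theorem pow_killed_le {N : ℕ} (hN : 2 ≤ N) (n : ℕ) (x y : Fin (N + 1)) :
    (killed (P N) (A0 N) ^ n) x y ≤ (P N ^ n) x y := by
  have hK := killed_nonneg (P_nonneg hN) (A0 N)
  have hKP : ∀ x y, killed (P N) (A0 N) x y ≤ P N x y := by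
    intro x y
    unfold killed
    split_ifs
    · exact le_rfl
    · exact P_nonneg hN x y
  induction n generalizing x with
  | zero => simp
  | succ n ih =>
    rw [pow_succ', Matrix.mul_apply, pow_succ', Matrix.mul_apply]
    exact Finset.sum_le_sum fun z _ => mul_le_mul (hKP x z) (ih z) (pow_nonneg_entry hK n z y)
      (P_nonneg hN x z)

/-- Relative entropy bound for the heat kernel. -/
theorem relEnt_heat {N : ℕ} (hN : 2 ≤ N) {t : ℝ} (ht : 0 ≤ t) (x : Fin (N + 1)) :
    relEnt (heat (P N) t x) (pi N) ≤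
      Real.exp (-(t / 5)) * 2 ^ N * ((2 : ℝ) ^ N + N * Real.log 4 + 1 / pi N 0) +
        (1 / pi N 0 - 1) := by
  have hK := killed_nonneg (P_nonneg hN) (A0 N)
  have h0 := pi_pos hN 0
  refine relEnt_le (h₁ := fun y => NormedSpace.exp (-t • (1 - killed (P N) (A0 N))) x y)
    (pi_pos hN) (pi_ge hN) (fun y => heat_nonneg (P_nonneg hN) ht x y) (heat_row (P_row N) t x)
    (fun y => heat_nonneg hK ht x y) (fun y => ?_) (stay_le hN not_mem_A0 ht x _) ?_ ?_
    (fun y => ?_)
  · exact hasSum_le (fun n => mul_le_mul_of_nonneg_left (pow_killed_le hN n x y)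
      (weight_nonneg ht n)) (heat_hasSum _ t x y) (heat_hasSum (P N) t x y)
  · rw [le_div_iff₀ h0, one_mul]
    exact pi_zero_le N
  · have : (0 : ℝ) ≤ Real.log 4 := Real.log_nonneg (by norm_num)
    positivity
  · have h1 := heat_hasSum (P N) t x y
    have h2 := (heat_hasSum (killed (P N) (A0 N)) t x y).add
      ((poisson_hasSum t).mul_right (pi N y / pi N 0))
    have h3 := hasSum_le (fun n => ?_) h1 h2
    · have e : 1 / pi N 0 * pi N y = 1 * (pi N y / pi N 0) := by ring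
      rw [e]
      change heat (P N) t x y - _ ≤ _
      unfold heat
      linarith
    · have h4 := mul_le_mul_of_nonneg_left (pow_decomp hN n x y) (weight_nonneg ht n)
      rw [mul_add] at h4
      exact h4

theorem exp_bound (N : ℕ) : Real.exp (-((20 * N : ℝ) / 5)) ≤ (1 / 32) ^ N := by
  have h1 : (32 : ℝ) ≤ Real.exp 4 := by
    have h4 : (2.5 : ℝ) ≤ Real.exp 1 := by
      have := Real.exp_one_gt_d9; linarith
    calc (32 : ℝ) ≤ 2.5 ^ 4 := by norm_num
      _ ≤ Real.exp 1 ^ 4 := pow_le_pow_left₀ (by norm_num) h4 4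
      _ = Real.exp 4 := by rw [← Real.exp_nat_mul]; norm_num
  have e : -((20 * N : ℝ) / 5) = (N : ℝ) * (-4) := by ring
  rw [e, Real.exp_nat_mul]
  refine pow_le_pow_left₀ (Real.exp_pos _).le ?_ N
  rw [Real.exp_neg, one_div]
  exact inv_anti₀ (by norm_num) h1

theorem log4_le : Real.log 4 ≤ 3 / 2 := by
  have h : Real.log 4 = 2 * Real.log 2 := by
    rw [show (4 : ℝ) = 2 ^ 2 by norm_num, Real.log_pow]
    norm_num
  have := Real.log_two_lt_d9
  linarith

theorem nat_le_two_pow (N : ℕ) : (N : ℝ) ≤ 2 ^ N := by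
  exact_mod_cast (Nat.lt_two_pow_self (n := N)).le

/-- The entropy mixing time is at most `20 N`. -/
theorem tauEnt_le {N : ℕ} (hN : 2 ≤ N) : tauEnt (P N) (pi N) ≤ 20 * N := by
  refine ciSup_le fun x => csInf_le ⟨0, fun t ht => ht.1⟩ ⟨by positivity, ?_⟩
  have h := relEnt_heat hN (t := 20 * N) (by positivity) x
  have h0 := pi_zero_ge hN
  have h0' := pi_pos hN 0
  have h1 : 1 / pi N 0 ≤ 16 / 15 := by
    rw [div_le_iff₀ h0']; linarith
  have h2 : Real.exp (-((20 * N : ℝ) / 5)) * 2 ^ N ≤ (1 / 16) ^ N := by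
    calc Real.exp (-((20 * N : ℝ) / 5)) * 2 ^ N ≤ (1 / 32) ^ N * 2 ^ N :=
          mul_le_mul_of_nonneg_right (exp_bound N) (by positivity)
      _ = (1 / 16) ^ N := by rw [← mul_pow]; norm_num
  have h3 : (2 : ℝ) ^ N + N * Real.log 4 + 1 / pi N 0 ≤ 4 * 2 ^ N := by
    have h4 := nat_le_two_pow N
    have h5 := log4_le
    have h6 : (4 : ℝ) ≤ 2 ^ N := by
      calc (4 : ℝ) = 2 ^ 2 := by norm_num
        _ ≤ 2 ^ N := pow_le_pow_right₀ (by norm_num) hN
    have h7 : (N : ℝ) * Real.log 4 ≤ 2 ^ N * (3 / 2) := by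
      have : (0 : ℝ) ≤ Real.log 4 := Real.log_nonneg (by norm_num)
      exact mul_le_mul h4 h5 this (by positivity)
    linarith
  have h4 : Real.exp (-((20 * N : ℝ) / 5)) * 2 ^ N *
      ((2 : ℝ) ^ N + N * Real.log 4 + 1 / pi N 0) ≤ (1 / 16) ^ N * (4 * 2 ^ N) := by
    refine mul_le_mul h2 h3 ?_ (by positivity)
    have : (0 : ℝ) ≤ Real.log 4 := Real.log_nonneg (by norm_num)
    positivity
  have h5 : (1 / 16 : ℝ) ^ N * (4 * 2 ^ N) ≤ 1 / 16 := by
    have e : (1 / 16 : ℝ) ^ N * (4 * 2 ^ N) = 4 * (1 / 8) ^ N := by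
      rw [show (1 / 8 : ℝ) = 1 / 16 * 2 by norm_num, mul_pow]; ring
    rw [e]
    have : (1 / 8 : ℝ) ^ N ≤ (1 / 8) ^ 2 := pow_le_pow_of_le_one (by norm_num) (by norm_num) hN
    linarith
  linarith

/-- The entropy hitting-time parameter is at most `20 N`. -/
theorem rhoEnt_le {N : ℕ} (hN : 2 ≤ N) {C : ℝ} (hC : 3 * (1 / 8) ^ N ≤ C) :
    rhoEnt C (P N) (pi N) ≤ 20 * N := by
  refine ciSup_le fun x => csInf_le ⟨0, fun t ht => ht.1⟩ ⟨by positivity, ?_⟩
  intro A _ hA
  have hA0 : (0 : Fin (N + 1)) ∉ A := by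
    intro h
    have h1 : pi N 0 ≤ ∑ y ∈ A, pi N y :=
      Finset.single_le_sum (f := pi N) (fun y _ => (pi_pos hN y).le) h
    have := pi_zero_ge hN
    linarith
  have h2 : Real.exp (-((20 * N : ℝ) / 5)) * 2 ^ N ≤ (1 / 16) ^ N := by
    calc Real.exp (-((20 * N : ℝ) / 5)) * 2 ^ N ≤ (1 / 32) ^ N * 2 ^ N :=
          mul_le_mul_of_nonneg_right (exp_bound N) (by positivity)
      _ = (1 / 16) ^ N := by rw [← mul_pow]; norm_num
  have h1 : stayProb (P N) A (20 * N) x ≤ (1 / 16) ^ N :=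
    (stay_le hN hA0 (by positivity) x A).trans h2
  rcases A.eq_empty_or_nonempty with rfl | hne
  · rw [stayProb_empty]
    simp
    norm_num
  refine le_min ?_ ?_
  · refine h1.trans ?_
    obtain ⟨a, ha⟩ := hne
    have h3 : Real.exp (-((2 : ℝ) ^ N + N * Real.log 4)) ≤ ∑ y ∈ A, pi N y :=
      (pi_ge hN a).trans (Finset.single_le_sum (f := pi N) (fun y _ => (pi_pos hN y).le) ha)
    have h3' : 0 < ∑ y ∈ A, pi N y := lt_of_lt_of_le (Real.exp_pos _) h3
    have h4 : -((2 : ℝ) ^ N + N * Real.log 4) ≤ Real.log (∑ y ∈ A, pi N y) := by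
      have := Real.log_le_log (Real.exp_pos _) h3
      rwa [Real.log_exp] at this
    have h5 : Real.log (∑ y ∈ A, pi N y) < 0 := Real.log_neg h3' (by linarith)
    have h6 : |Real.log (∑ y ∈ A, pi N y)| ≤ 3 * 2 ^ N := by
      rw [abs_of_neg h5]
      have h7 : (N : ℝ) * Real.log 4 ≤ 2 ^ N * (3 / 2) := by
        have : (0 : ℝ) ≤ Real.log 4 := Real.log_nonneg (by norm_num)
        exact mul_le_mul (nat_le_two_pow N) log4_le this (by positivity)
      have : (0 : ℝ) < 2 ^ N := by positivity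
      linarith
    have h8 : 0 < |Real.log (∑ y ∈ A, pi N y)| := abs_pos.mpr h5.ne
    rw [le_div_iff₀ h8]
    calc (1 / 16 : ℝ) ^ N * |Real.log (∑ y ∈ A, pi N y)| ≤ (1 / 16) ^ N * (3 * 2 ^ N) :=
          mul_le_mul_of_nonneg_left h6 (by positivity)
      _ = 3 * (1 / 8) ^ N := by
          rw [show (1 / 8 : ℝ) = 1 / 16 * 2 by norm_num, mul_pow]; ring
      _ ≤ C := hC
  · refine h1.trans ?_
    have : (1 / 16 : ℝ) ^ N ≤ (1 / 16) ^ 2 := pow_le_pow_of_le_one (by norm_num) (by norm_num) hN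
    linarith

end Pool.Agent.H857R3.MLS
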