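import Mathlib
import Pool.Agent.H857R3.MLS.Bounds

/-!
# The modified log-Sobolev constant of the birth and death chain
-/

set_option autoImplicit false
set_option linter.unusedSectionVars false

open Finset Matrix

namespace Pool.Agent.H857R3.MLS

variable {N : ℕ}

/-- The set of the Rayleigh-type quotients defining `cMLS`. -/
theorem quot_pos {N : ℕ} (hN : 2 ≤ N) : ∃ κ : ℝ, 0 < κ ∧ ∀ f : Fin (N + 1) → ℝ,
    (¬ ∃ a : ℝ, ∀ x, f x = a) →
    κ ≤ dirichlet (P N) (pi N) (fun x => Real.exp (f x)) f /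
      ent (pi N) (fun x => Real.exp (f x)) := by
  set p : ℝ := Real.exp (-((2 : ℝ) ^ N + N * Real.log 4)) with hp
  have hp0 : 0 < p := Real.exp_pos _
  have hcN : 0 < c N N := c_pos N N
  have hN0 : (0 : ℝ) < N := by exact_mod_cast (by omega : 0 < N)
  refine ⟨p * c N N / (8 * N), by positivity, fun f hf => ?_⟩
  have hent : 0 < ent (pi N) (fun x => Real.exp (f x)) := by
    refine ent_pos (pi_pos hN) (pi_sum N) (fun x => Real.exp_pos _) ?_
    rintro ⟨a, ha⟩
    refine hf ⟨Real.log a, fun x => ?_⟩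
    rw [← ha x, Real.log_exp]
  rw [le_div_iff₀ hent]
  set h : Fin (N + 1) → ℝ := fun x => Real.exp (f x / 2) with hh
  set s : ℝ := ∑ j : Fin N, |h j.castSucc - h j.succ| with hs
  set Q : ℝ := ∑ j : Fin N, (h j.castSucc - h j.succ) ^ 2 with hQ
  have hsq : (fun x => Real.exp (f x)) = fun x => h x ^ 2 := by
    funext x
    simp only [hh]
    rw [← Real.exp_nat_mul]
    congr 1
    push_cast
    ring
  -- telescoping
  have htel : ∀ k : ℕ, ∀ hk : k < N + 1, |h ⟨k, hk⟩ - h 0| ≤ s := by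
    have h1 : ∀ k : ℕ, ∀ hk : k < N + 1, |h ⟨k, hk⟩ - h 0| ≤
        ∑ j ∈ Finset.univ.filter (fun j : Fin N => (j : ℕ) < k), |h j.castSucc - h j.succ| := by
      intro k
      induction k with
      | zero => intro hk; simp
      | succ k ih =>
        intro hk
        have hkN : k < N := by omega
        have e : Finset.univ.filter (fun j : Fin N => (j : ℕ) < k + 1) =
            insert (⟨k, hkN⟩ : Fin N) (Finset.univ.filter (fun j : Fin N => (j : ℕ) < k)) := by
          ext j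
          simp only [Finset.mem_filter, Finset.mem_univ, true_and, Finset.mem_insert, Fin.ext_iff]
          omega
        rw [e, Finset.sum_insert (by simp)]
        have h2 := ih (by omega)
        have h3 : |h ⟨k + 1, hk⟩ - h 0| ≤ |h ⟨k + 1, hk⟩ - h ⟨k, by omega⟩| +
            |h ⟨k, by omega⟩ - h 0| := abs_sub_le _ _ _
        have h4 : |h ⟨k + 1, hk⟩ - h ⟨k, by omega⟩| =
            |h (⟨k, hkN⟩ : Fin N).castSucc - h (⟨k, hkN⟩ : Fin N).succ| := by
          rw [abs_sub_comm]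
          rfl
        rw [h4] at h3
        linarith
    intro k hk
    refine (h1 k hk).trans ?_
    exact Finset.sum_le_sum_of_subset_of_nonneg (Finset.filter_subset _ _)
      fun j _ _ => abs_nonneg _
  have hdiff : ∀ x y, |h x - h y| ≤ 2 * s := by
    intro x y
    have h1 := htel x x.isLt
    have h2 := htel y y.isLt
    have h3 : |h x - h y| ≤ |h x - h 0| + |h 0 - h y| := abs_sub_le _ _ _
    rw [abs_sub_comm (h 0) (h y)] at h3
    have h1' : |h x - h 0| ≤ s := h1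
    have h2' : |h y - h 0| ≤ s := h2
    linarith
  have h1 : ent (pi N) (fun x => Real.exp (f x)) ≤ 4 / p * (2 * s) ^ 2 := by
    rw [hsq]
    exact ent_le hp0 (pi_ge hN) (pi_sum N) (fun x => Real.exp_pos _) hdiff
  have h2 : s ^ 2 ≤ N * Q := by
    have := sq_sum_le_card_mul_sum_sq (s := (Finset.univ : Finset (Fin N)))
      (f := fun j => |h j.castSucc - h j.succ|)
    simp only [Finset.card_univ, Fintype.card_fin, sq_abs] at this
    exact this
  have h3 : 2 * c N N * Q ≤ dirichlet (P N) (pi N) (fun x => Real.exp (f x)) f := by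
    rw [dirichlet_eq hN, hQ, Finset.mul_sum]
    refine Finset.sum_le_sum fun j _ => ?_
    have h4 : c N N ≤ c N j := by
      have := w_pos N
      unfold c
      refine mul_le_mul_of_nonneg_left ?_ (by positivity)
      exact pow_le_pow_of_le_one (by norm_num) (by norm_num) j.isLt.le
    have h5 := exp_diff_ge (f j.castSucc) (f j.succ)
    have h6 : 0 ≤ (h j.castSucc - h j.succ) ^ 2 := sq_nonneg _
    calc 2 * c N N * (h j.castSucc - h j.succ) ^ 2
        = c N N * (2 * (h j.castSucc - h j.succ) ^ 2) := by ring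
      _ ≤ c N j * (2 * (h j.castSucc - h j.succ) ^ 2) :=
          mul_le_mul_of_nonneg_right h4 (by positivity)
      _ ≤ c N j * ((Real.exp (f j.castSucc) - Real.exp (f j.succ)) *
          (f j.castSucc - f j.succ)) :=
          mul_le_mul_of_nonneg_left h5 (c_pos N _).le
  have hQ0 : 0 ≤ Q := Finset.sum_nonneg fun j _ => sq_nonneg _
  calc p * c N N / (8 * N) * ent (pi N) (fun x => Real.exp (f x))
      ≤ p * c N N / (8 * N) * (4 / p * (2 * s) ^ 2) :=
        mul_le_mul_of_nonneg_left h1 (by positivity)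
    _ = 2 * c N N / N * s ^ 2 := by field_simp; ring
    _ ≤ 2 * c N N / N * (N * Q) := mul_le_mul_of_nonneg_left h2 (by positivity)
    _ = 2 * c N N * Q := by field_simp
    _ ≤ _ := h3

/-- The test function. -/
noncomputable def F (N : ℕ) (x : Fin (N + 1)) : ℝ :=
  if (x : ℕ) = 0 then 0 else (x : ℕ) * Real.log 8 + 2 ^ N - N * Real.log 2

theorem F_zero (N : ℕ) : F N 0 = 0 := by simp [F]

theorem F_succ (i : Fin N) :
    F N i.succ = ((i : ℕ) + 1 : ℝ) * Real.log 8 + 2 ^ N - N * Real.log 2 := by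
  simp [F]

theorem exp_F_succ (i : Fin N) :
    Real.exp (F N i.succ) = 8 ^ ((i : ℕ) + 1) / (w N * 2 ^ N) := by
  rw [F_succ, w, Real.exp_neg]
  have e : ((i : ℕ) + 1 : ℝ) * Real.log 8 + 2 ^ N - N * Real.log 2 =
      (((i : ℕ) + 1 : ℕ) : ℝ) * Real.log 8 + 2 ^ N - (N : ℝ) * Real.log 2 := by push_cast; ring
  rw [e, Real.exp_sub, Real.exp_add, Real.exp_nat_mul, Real.exp_nat_mul,
    Real.exp_log (by norm_num), Real.exp_log (by norm_num)]
  have := Real.exp_pos ((2 : ℝ) ^ N)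
  field_simp

theorem pi_exp_F (i : Fin N) : pi N i.succ * Real.exp (F N i.succ) = 2 ^ ((i : ℕ) + 1) / 2 ^ N := by
  rw [exp_F_succ, pi_succ]
  have := w_pos N
  have e : (8 : ℝ) ^ ((i : ℕ) + 1) = 4 ^ ((i : ℕ) + 1) * 2 ^ ((i : ℕ) + 1) := by
    rw [← mul_pow]; norm_num
  rw [e, one_div, inv_pow]
  field_simp

theorem geom2 (n : ℕ) : ∑ i ∈ Finset.range n, (2 : ℝ) ^ i = 2 ^ n - 1 := by
  induction n with
  | zero => simp
  | succ n ih => rw [Finset.sum_range_succ, ih, pow_succ]; ring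

theorem log2_bounds : (0 : ℝ) < Real.log 2 ∧ Real.log 2 ≤ 1 := by
  have h1 := Real.log_two_gt_d9
  have h2 := Real.log_two_lt_d9
  constructor <;> linarith

theorem log8 : Real.log 8 = 3 * Real.log 2 := by
  rw [show (8 : ℝ) = 2 ^ 3 by norm_num, Real.log_pow]
  norm_num

theorem F_nonneg (x : Fin (N + 1)) : 0 ≤ F N x := by
  refine Fin.cases ?_ (fun i => ?_) x
  · rw [F_zero]
  · rw [F_succ, log8]
    have h1 := log2_bounds
    have h2 := nat_le_two_pow N
    have h3 : (N : ℝ) * Real.log 2 ≤ 2 ^ N * 1 :=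
      mul_le_mul h2 h1.2 h1.1.le (by positivity)
    have h4 : (0 : ℝ) ≤ ((i : ℕ) + 1 : ℝ) * (3 * Real.log 2) := by
      have := h1.1
      positivity
    linarith

/-- Entropy production of the test function. -/
theorem dirichlet_F {N : ℕ} (hN : 2 ≤ N) :
    dirichlet (P N) (pi N) (fun x => Real.exp (F N x)) (F N) ≤ 8 := by
  obtain ⟨M, rfl⟩ : ∃ M, N = M + 1 := ⟨N - 1, by omega⟩
  rw [dirichlet_eq hN, Fin.sum_univ_succ]
  have hw := w_pos (M + 1)
  have hl := log2_bounds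
  have hl' := Real.log_two_lt_d9
  -- the edge at the heavy state
  have h1 : c (M + 1) ((0 : Fin (M + 1)) : ℕ) *
      ((Real.exp (F (M + 1) (0 : Fin (M + 1)).castSucc) -
        Real.exp (F (M + 1) (0 : Fin (M + 1)).succ)) *
      (F (M + 1) (0 : Fin (M + 1)).castSucc - F (M + 1) (0 : Fin (M + 1)).succ)) ≤ 4 := by
    rw [Fin.castSucc_zero, F_zero, Real.exp_zero]
    have e1 := exp_F_succ (N := M + 1) (0 : Fin (M + 1))
    have e2 := F_succ (N := M + 1) (0 : Fin (M + 1))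
    simp only [Fin.val_zero, zero_add, pow_one, Nat.cast_zero, one_mul] at e1 e2
    have h2 : 0 ≤ F (M + 1) (0 : Fin (M + 1)).succ := F_nonneg _
    have h3 : F (M + 1) (0 : Fin (M + 1)).succ ≤ 2 ^ (M + 1) + 3 := by
      rw [e2, log8]
      have : (0 : ℝ) ≤ ((M + 1 : ℕ) : ℝ) * Real.log 2 := by
        have := hl.1
        positivity
      linarith
    have h4 : c (M + 1) ((0 : Fin (M + 1)) : ℕ) * Real.exp (F (M + 1) (0 : Fin (M + 1)).succ) =
        8 / 5 / 2 ^ (M + 1) := by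
      rw [e1, Fin.val_zero, c]
      field_simp
    have h5 : (4 : ℝ) ≤ 2 ^ (M + 1) := by
      calc (4 : ℝ) = 2 ^ 2 := by norm_num
        _ ≤ 2 ^ (M + 1) := pow_le_pow_right₀ (by norm_num) hN
    have h6 : c (M + 1) ((0 : Fin (M + 1)) : ℕ) *
        ((1 - Real.exp (F (M + 1) (0 : Fin (M + 1)).succ)) *
        (0 - F (M + 1) (0 : Fin (M + 1)).succ)) =
        c (M + 1) ((0 : Fin (M + 1)) : ℕ) * Real.exp (F (M + 1) (0 : Fin (M + 1)).succ) *
          F (M + 1) (0 : Fin (M + 1)).succ -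
        c (M + 1) ((0 : Fin (M + 1)) : ℕ) * F (M + 1) (0 : Fin (M + 1)).succ := by ring
    rw [h6, h4]
    have h7 : 0 ≤ c (M + 1) ((0 : Fin (M + 1)) : ℕ) * F (M + 1) (0 : Fin (M + 1)).succ :=
      mul_nonneg (c_pos _ _).le h2
    have h8 : (8 / 5 / 2 ^ (M + 1) : ℝ) * F (M + 1) (0 : Fin (M + 1)).succ ≤
        8 / 5 / 2 ^ (M + 1) * (2 ^ (M + 1) + 3) :=
      mul_le_mul_of_nonneg_left h3 (by positivity)
    have h9 : (8 / 5 / 2 ^ (M + 1) : ℝ) * (2 ^ (M + 1) + 3) = 8 / 5 + 24 / 5 / 2 ^ (M + 1) := by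
      field_simp
      ring
    have h10 : (24 / 5 / 2 ^ (M + 1) : ℝ) ≤ 24 / 5 / 4 :=
      div_le_div_of_nonneg_left (by norm_num) (by norm_num) h5
    linarith
  -- the other edges
  have h2 : ∑ i : Fin M, c (M + 1) ((i.succ : Fin (M + 1)) : ℕ) *
      ((Real.exp (F (M + 1) (i.succ : Fin (M + 1)).castSucc) -
        Real.exp (F (M + 1) (i.succ : Fin (M + 1)).succ)) *
      (F (M + 1) (i.succ : Fin (M + 1)).castSucc - F (M + 1) (i.succ : Fin (M + 1)).succ)) ≤ 4 := by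
    have h3 : ∀ i : Fin M, c (M + 1) ((i.succ : Fin (M + 1)) : ℕ) *
      ((Real.exp (F (M + 1) (i.succ : Fin (M + 1)).castSucc) -
        Real.exp (F (M + 1) (i.succ : Fin (M + 1)).succ)) *
      (F (M + 1) (i.succ : Fin (M + 1)).castSucc - F (M + 1) (i.succ : Fin (M + 1)).succ)) =
      7 / 5 * Real.log 8 * (2 ^ ((i : ℕ) + 1) / 2 ^ (M + 1)) := by
      intro i
      have e0 : (i.succ : Fin (M + 1)).castSucc = (i.castSucc : Fin (M + 1)).succ := by
        rw [Fin.succ_castSucc]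
      rw [e0, exp_F_succ, exp_F_succ, F_succ, F_succ]
      simp only [Fin.val_succ, Fin.val_castSucc]
      rw [c]
      have e1 : (8 : ℝ) ^ ((i : ℕ) + 1 + 1) = 8 * (4 ^ ((i : ℕ) + 1) * 2 ^ ((i : ℕ) + 1)) := by
        rw [← mul_pow, pow_succ]; norm_num; ring
      have e2 : (8 : ℝ) ^ ((i : ℕ) + 1) = 4 ^ ((i : ℕ) + 1) * 2 ^ ((i : ℕ) + 1) := by
        rw [← mul_pow]; norm_num
      rw [e1, e2, one_div (4 : ℝ), inv_pow]
      push_cast
      field_simp
      ring
    rw [Finset.sum_congr rfl fun i _ => h3 i, ← Finset.mul_sum]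
    have h4 : ∑ i : Fin M, ((2 : ℝ) ^ ((i : ℕ) + 1) / 2 ^ (M + 1)) ≤ 1 := by
      rw [← Finset.sum_div, div_le_one (by positivity),
        Fin.sum_univ_eq_sum_range (fun i => (2 : ℝ) ^ (i + 1)) M]
      simp_rw [pow_succ]
      rw [← Finset.sum_mul, geom2]
      linarith
    have h5 : (0 : ℝ) ≤ 7 / 5 * Real.log 8 := by rw [log8]; linarith [hl.1]
    have h6 : 7 / 5 * Real.log 8 ≤ 4 := by rw [log8]; linarith
    calc 7 / 5 * Real.log 8 * ∑ i : Fin M, ((2 : ℝ) ^ ((i : ℕ) + 1) / 2 ^ (M + 1))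
        ≤ 7 / 5 * Real.log 8 * 1 := mul_le_mul_of_nonneg_left h4 h5
      _ ≤ 4 := by linarith
  linarith

theorem x_log_x_le {m : ℝ} (h0 : 0 < m) (h3 : m ≤ 3) : m * Real.log m ≤ 6 := by
  have h1 : Real.log m ≤ m - 1 := Real.log_le_sub_one_of_pos h0
  nlinarith

/-- Entropy of the test function. -/
theorem ent_F {N : ℕ} (hN : 2 ≤ N) : 2 ^ N - 6 ≤ ent (pi N) (fun x => Real.exp (F N x)) := by
  unfold ent
  simp only [Real.log_exp]
  have hm : ∑ x, pi N x * Real.exp (F N x) ≤ 3 := by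
    rw [Fin.sum_univ_succ, F_zero, Real.exp_zero, mul_one]
    simp_rw [pi_exp_F]
    rw [← Finset.sum_div, Fin.sum_univ_eq_sum_range (fun i => (2 : ℝ) ^ (i + 1)) N]
    simp_rw [pow_succ]
    rw [← Finset.sum_mul, geom2]
    have h1 : ((2 : ℝ) ^ N - 1) * 2 / 2 ^ N ≤ 2 := by
      rw [div_le_iff₀ (by positivity)]
      linarith
    linarith [pi_zero_le N]
  have hm0 : 0 < ∑ x, pi N x * Real.exp (F N x) :=
    Finset.sum_pos (fun x _ => mul_pos (pi_pos hN x) (Real.exp_pos _)) Finset.univ_nonempty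
  have h1 := x_log_x_le hm0 hm
  have h2 : (2 : ℝ) ^ N ≤ ∑ x, pi N x * (Real.exp (F N x) * F N x) := by
    obtain ⟨M, rfl⟩ : ∃ M, N = M + 1 := ⟨N - 1, by omega⟩
    have h3 : pi (M + 1) (Fin.last M).succ *
        (Real.exp (F (M + 1) (Fin.last M).succ) * F (M + 1) (Fin.last M).succ) ≤
        ∑ x, pi (M + 1) x * (Real.exp (F (M + 1) x) * F (M + 1) x) :=
      Finset.single_le_sum (f := fun x => pi (M + 1) x * (Real.exp (F (M + 1) x) * F (M + 1) x))
        (fun x _ => mul_nonneg (pi_pos hN x).le (mul_nonneg (Real.exp_pos _).le (F_nonneg x)))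
        (Finset.mem_univ _)
    refine le_trans ?_ h3
    rw [← mul_assoc, pi_exp_F, F_succ, Fin.val_last, div_self (by positivity), one_mul, log8]
    have := log2_bounds.1
    push_cast
    have h4 : (0 : ℝ) ≤ (M + 1 : ℝ) * Real.log 2 := by positivity
    nlinarith
  linarith

theorem F_nonconst {N : ℕ} (hN : 2 ≤ N) : ¬ ∃ a : ℝ, ∀ x, F N x = a := by
  rintro ⟨a, ha⟩
  obtain ⟨M, rfl⟩ : ∃ M, N = M + 1 := ⟨N - 1, by omega⟩
  have h1 := ha 0
  have h2 := ha (Fin.last M).succ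
  rw [F_zero] at h1
  rw [← h1, F_succ, Fin.val_last, log8] at h2
  have := log2_bounds.1
  push_cast at h2
  have h4 : (0 : ℝ) ≤ (M + 1 : ℝ) * Real.log 2 := by positivity
  have h5 : (0 : ℝ) < 2 ^ (M + 1) := by positivity
  nlinarith

theorem cMLS_pos {N : ℕ} (hN : 2 ≤ N) : 0 < cMLS (P N) (pi N) := by
  obtain ⟨κ, hκ, h⟩ := quot_pos hN
  refine lt_of_lt_of_le hκ (le_csInf ⟨_, F N, F_nonconst hN, rfl⟩ ?_)
  rintro r ⟨f, hf, rfl⟩
  exact h f hf

theorem cMLS_le {N : ℕ} (hN : 3 ≤ N) : cMLS (P N) (pi N) ≤ 8 / (2 ^ N - 6) := by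
  have hN' : 2 ≤ N := by omega
  obtain ⟨κ, hκ, h⟩ := quot_pos hN'
  have h1 : cMLS (P N) (pi N) ≤ dirichlet (P N) (pi N) (fun x => Real.exp (F N x)) (F N) /
      ent (pi N) (fun x => Real.exp (F N x)) := by
    refine csInf_le ⟨κ, ?_⟩ ⟨F N, F_nonconst hN', rfl⟩
    rintro r ⟨f, hf, rfl⟩
    exact h f hf
  refine h1.trans ?_
  have h8 : (8 : ℝ) ≤ 2 ^ N := by
    calc (8 : ℝ) = 2 ^ 3 := by norm_num
      _ ≤ 2 ^ N := pow_le_pow_right₀ (by norm_num) hN
  exact div_le_div₀ (by norm_num) (dirichlet_F hN') (by linarith) (ent_F hN')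

end Pool.Agent.H857R3.MLS
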